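import Mathlib
import Pool.Agent.Q98.EQ4

set_option autoImplicit false

open Cardinal

open scoped ENNReal

namespace Pool.Agent.Results.MP_55235b_an.NoUncountableEquilateral

/-- The first uncountable ordinal, as a set of points. -/
abbrev Omega1 : Type := (Ordinal.omega 1).ToType

/-- The Hilbert space `ℓ₂(ω₁)` of all square summable real functions on `ω₁`. -/
abbrev ell2Omega1 : Type := lp (fun _ : Omega1 => ℝ) 2

/-- `N` is an equivalent renorming of `ℓ₂(ω₁)`: a (semi)norm with `c ‖x‖₂ ≤ N x ≤ C ‖x‖₂` for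
positive constants. -/
def IsEquivalentNorm (N : Seminorm ℝ ell2Omega1) : Prop :=
  ∃ c C : ℝ, 0 < c ∧ c ≤ C ∧ ∀ x, c * ‖x‖ ≤ N x ∧ N x ≤ C * ‖x‖

/-- `Y` is equilateral for the norm `N`. -/
def IsEquilateral (N : Seminorm ℝ ell2Omega1) (Y : Set ell2Omega1) : Prop :=
  ∃ δ : ℝ, 0 < δ ∧ ∀ y ∈ Y, ∀ y' ∈ Y, y ≠ y' → N (y - y') = δ

/-- **Some equivalent renorming of `ℓ₂(ω₁)` has no uncountable equilateral set.** -/
theorem result : ∃ N : Seminorm ℝ ell2Omega1, IsEquivalentNorm N ∧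
    ∀ Y : Set ell2Omega1, IsEquilateral N Y → Y.Countable := by
  have hc : #Omega1 = ℵ₁ := by
    rw [mk_toType, ← ord_aleph, card_ord]
  have hI : ∀ i : Omega1, (Set.Iio i).Countable := by
    intro i
    rw [← le_aleph0_iff_set_countable, ← Order.lt_succ_iff, succ_aleph0, ← hc]
    refine mk_Iio_lt i ?_
    rw [hc, ord_aleph, Ordinal.type_toType]
  have hU : Uncountable Omega1 := by
    rw [← aleph0_lt_mk_iff, hc]
    exact aleph0_lt_aleph_one
  obtain ⟨W, hpos, hzero⟩ := Q98.EQ.exists_Wt hI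
  refine ⟨Q98.EQ.Ns W, ⟨1, 3, one_pos, by norm_num, fun x => ⟨?_, ?_⟩⟩, ?_⟩
  · rw [one_mul]; exact Q98.EQ.norm_le_N W x
  · exact Q98.EQ.N_le W x
  · rintro Y ⟨δ, hδ, hY⟩
    have h : Q98.EQ.Equil W (fun y : Y => (y : ell2Omega1)) δ := fun a b hab =>
      hY a a.2 b b.2 fun h => hab (Subtype.ext h)
    exact Set.countable_coe_iff.1 (h.countable hI hpos hzero hδ)

end Pool.Agent.Results.MP_55235b_an.NoUncountableEquilateral
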